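import Mathlib
import Pool.Agent.R301.Cos.Core

set_option autoImplicit false

open MeasureTheory Module
open scoped RealInnerProductSpace ContDiff

/-!
# The cosine transform may vanish exactly off an open Schubert cell

Definitions used (files `Pool/Agent/H892R2/Proj/Defs.lean`, `Pool/Agent/R301/Cos/Basic.lean`,
`Pool/Agent/R301/Cos/Core.lean`):

* `E n` is the Euclidean space `ℝⁿ`, `O n` the orthogonal group, `haarO n` its Haar probability
  measure, `plane n k g` the span of the first `k` columns of `g ∈ O(n)`; for `g` distributed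
  according to `haarO n` this is a random `k`-dimensional subspace whose law is the `O(n)`-invariant
  probability measure on the Grassmannian;
* `pm V` is the matrix of the orthogonal projection `P_V` onto `V`;
* `absCos V W = √ det (P_V ∘ P_W : V → V)`, written as the square root of the determinant of the
  matrix of `P_V P_W P_V + (1 - P_V)` (the extension of `P_V ∘ P_W : V → V` by the identity on the
  orthogonal complement of `V`; see `absCos_def`, `det_pm` in `Basic.lean` for the equality);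
* `cosT n k f W` is the integral of `absCos V W * f V` over the random `k`-dimensional subspace `V`,
  i.e. the cosine transform of `f` at `W`;
* `SmoothOnGr n k f`: `v ↦ f (span v)` is smooth on the open set of linearly independent `k`-tuples
  of vectors of `ℝⁿ`, i.e. `f` is a smooth function on the Grassmannian.
-/

namespace Pool.Agent.Results.MP_a64afa_an.CosineSchubertCell

open Pool.Agent.H892R2.Proj Pool.Agent.R301.Cos

theorem gram_pos {v : Fin 2 → E 4} (hv : LinearIndependent ℝ v) :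
    0 < ⟪v 0, v 0⟫ * ⟪v 1, v 1⟫ - ⟪v 0, v 1⟫ ^ 2 := by
  have h0 : v 0 ≠ 0 := hv.ne_zero 0
  have h00 : 0 < ⟪v 0, v 0⟫ := real_inner_self_pos.2 h0
  set w : E 4 := ⟪v 0, v 0⟫ • v 1 - ⟪v 0, v 1⟫ • v 0 with hw
  have hw0 : w ≠ 0 := by
    intro h
    have h1 := Fintype.linearIndependent_iff.1 hv ![-⟪v 0, v 1⟫, ⟪v 0, v 0⟫] (by
      rw [Fin.sum_univ_two]
      simp only [Matrix.cons_val_zero, Matrix.cons_val_one, neg_smul]
      rw [← h, hw]
      abel) 1
    simp only [Matrix.cons_val_one] at h1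
    exact h00.ne' h1
  have h1 : 0 < ⟪w, w⟫ := real_inner_self_pos.2 hw0
  have h2 : ⟪w, w⟫ = ⟪v 0, v 0⟫ * (⟪v 0, v 0⟫ * ⟪v 1, v 1⟫ - ⟪v 0, v 1⟫ ^ 2) := by
    rw [hw]
    simp only [inner_sub_left, inner_sub_right, inner_smul_left, inner_smul_right, RCLike.conj_to_real]
    rw [real_inner_comm (v 0) (v 1)]
    ring
  rw [h2] at h1
  exact (mul_pos_iff_of_pos_left h00).1 h1

theorem absCos_sq_span {v : Fin 2 → E 4} (hv : LinearIndependent ℝ v) {W : Submodule ℝ (E 4)}
    (u : OrthonormalBasis (Fin 2) ℝ W) :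
    absCos (Submodule.span ℝ (Set.range v)) W ^ 2 =
      (⟪v 0, (u 0 : E 4)⟫ * ⟪v 1, (u 1 : E 4)⟫ - ⟪v 0, (u 1 : E 4)⟫ * ⟪v 1, (u 0 : E 4)⟫) ^ 2 /
        (⟪v 0, v 0⟫ * ⟪v 1, v 1⟫ - ⟪v 0, v 1⟫ ^ 2) := by
  have hG := gram_pos hv
  have h := det_compress (Basis.span hv) u
  have hb : ∀ i, ((Basis.span hv i : Submodule.span ℝ (Set.range v)) : E 4) = v i :=
    fun i => congrArg Subtype.val (Basis.span_apply hv i)
  rw [hb, hb] at h
  have hdet : LinearMap.det (compress (Submodule.span ℝ (Set.range v)) W) =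
      (⟪v 0, (u 0 : E 4)⟫ * ⟪v 1, (u 1 : E 4)⟫ - ⟪v 0, (u 1 : E 4)⟫ * ⟪v 1, (u 0 : E 4)⟫) ^ 2 /
        (⟪v 0, v 0⟫ * ⟪v 1, v 1⟫ - ⟪v 0, v 1⟫ ^ 2) := by
    rw [eq_div_iff hG.ne', ← h]
    ring
  rw [absCos_def, Real.sq_sqrt, hdet]
  rw [hdet]
  exact div_nonneg (sq_nonneg _) hG.le

theorem smooth_absCos_sq {W : Submodule ℝ (E 4)} (hW : finrank ℝ W = 2) :
    ContDiffOn ℝ ∞ (fun v : Fin 2 → E 4 => absCos (Submodule.span ℝ (Set.range v)) W ^ 2)
      {v | LinearIndependent ℝ v} := by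
  have u : OrthonormalBasis (Fin 2) ℝ W := (stdOrthonormalBasis ℝ W).reindex (finCongr hW)
  refine ContDiffOn.congr (f := fun v : Fin 2 → E 4 =>
    (⟪v 0, (u 0 : E 4)⟫ * ⟪v 1, (u 1 : E 4)⟫ - ⟪v 0, (u 1 : E 4)⟫ * ⟪v 1, (u 0 : E 4)⟫) ^ 2 /
        (⟪v 0, v 0⟫ * ⟪v 1, v 1⟫ - ⟪v 0, v 1⟫ ^ 2)) ?_ (fun v hv => absCos_sq_span hv u)
  have h0 : ContDiff ℝ ∞ (fun v : Fin 2 → E 4 => v 0) := contDiff_apply _ _ _
  have h1 : ContDiff ℝ ∞ (fun v : Fin 2 → E 4 => v 1) := contDiff_apply _ _ _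
  refine ContDiffOn.div ?_ ?_ (fun v hv => (gram_pos hv).ne')
  · exact (((h0.inner ℝ contDiff_const).mul (h1.inner ℝ contDiff_const)).sub
      ((h0.inner ℝ contDiff_const).mul (h1.inner ℝ contDiff_const))).pow 2 |>.contDiffOn
  · exact (((h0.inner ℝ h0).mul (h1.inner ℝ h1)).sub ((h0.inner ℝ h1).pow 2)).contDiffOn

theorem smooth_fF {F : Submodule ℝ (E 4)} (hF : finrank ℝ F = 2) : SmoothOnGr 4 2 (fF F) := by
  have hF' : finrank ℝ Fᗮ = 2 := by
    have := Submodule.finrank_add_finrank_orthogonal F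
    rw [hF, finrank_euclideanSpace, Fintype.card_fin] at this
    omega
  unfold SmoothOnGr fF
  exact ((contDiffOn_const.mul (smooth_absCos_sq hF')).add
    (contDiffOn_const.mul (smooth_absCos_sq hF))).add contDiffOn_const

theorem absCos_sq_eq_zero_iff {W F : Submodule ℝ (E 4)} (hW : finrank ℝ W = 2)
    (hF : finrank ℝ F = 2) : absCos W Fᗮ ^ 2 = 0 ↔ W ⊓ F ≠ ⊥ := by
  obtain ⟨h, w, w', -⟩ := exists_frame W hW
  have hF' : finrank ℝ Fᗮ = 2 := by
    have := Submodule.finrank_add_finrank_orthogonal F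
    rw [hF, finrank_euclideanSpace, Fintype.card_fin] at this
    omega
  obtain ⟨h0, u, u', -⟩ := exists_frame Fᗮ hF'
  have h1 := (det_compress_nonneg w u).1
  have h2 := det_compress_eq_zero_iff W Fᗮ
  rw [Submodule.orthogonal_orthogonal] at h2
  rw [← h2]
  rw [absCos_def, Real.sq_sqrt h1]

/-- The Grassmannian of `k`-dimensional subspaces of `ℝⁿ`. -/
def Gr (n k : ℕ) : Set (Submodule ℝ (E n)) := {W | finrank ℝ W = k}

/-- `W` meets `F` nontrivially. -/
def Meets {n : ℕ} (W F : Submodule ℝ (E n)) : Prop := W ⊓ F ≠ ⊥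

/-- The assertion of Q1. -/
def Assertion : Prop :=
  ∀ n k : ℕ, 2 ≤ k → k + 2 ≤ n → ∀ F ∈ Gr n (n - k), ∀ f : Submodule ℝ (E n) → ℝ,
    SmoothOnGr n k f → (∀ W ∈ Gr n k, Meets W F → cosT n k f W = 0) → ∀ W ∈ Gr n k, cosT n k f W = 0

/-- There is a smooth function on the Grassmannian whose cosine transform is `|cos(W, F^⊥)|²`; it
vanishes at `W` exactly if `W` meets `F`, and is not identically zero. -/
def CosSquared (n k : ℕ) (F : Submodule ℝ (E n)) : Prop :=
  ∃ f : Submodule ℝ (E n) → ℝ, SmoothOnGr n k f ∧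
    (∀ W ∈ Gr n k, cosT n k f W = absCos W Fᗮ ^ 2 ∧ (cosT n k f W = 0 ↔ Meets W F)) ∧
    ∃ W ∈ Gr n k, cosT n k f W ≠ 0

/-- **Theorem.** For every plane `F` of `ℝ⁴` there is a smooth function `f` on the Grassmannian of
planes of `ℝ⁴` whose cosine transform is `W ↦ |cos(W, F^⊥)|²`; this transform vanishes at `W` if and
only if `W` meets `F` nontrivially, and it is not identically zero. In particular it is false that
(for `2 ≤ k ≤ n - 2` and smooth `f`) the cosine transform vanishes identically as soon as it vanishes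
at all `k`-subspaces meeting `F` nontrivially. -/
theorem result : (∀ F ∈ Gr 4 2, CosSquared 4 2 F) ∧ ¬ Assertion := by
  have main : ∀ F ∈ Gr 4 2, CosSquared 4 2 F := by
    intro F hF
    have hiff : ∀ W : Submodule ℝ (E 4), finrank ℝ W = 2 → (cosT 4 2 (fF F) W = 0 ↔ W ⊓ F ≠ ⊥) := by
      intro W hW
      rw [cosT_fF F W hF hW]
      exact absCos_sq_eq_zero_iff hW hF
    have hF' : finrank ℝ Fᗮ = 2 := by
      have := Submodule.finrank_add_finrank_orthogonal F
      rw [show finrank ℝ F = 2 from hF, finrank_euclideanSpace, Fintype.card_fin] at this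
      omega
    refine ⟨fF F, smooth_fF hF, fun W hW => ⟨cosT_fF F W hF hW, hiff W hW⟩, Fᗮ, hF', ?_⟩
    rw [Ne, hiff Fᗮ hF', not_not]
    rw [inf_comm]
    exact Submodule.inf_orthogonal_eq_bot F
  refine ⟨main, ?_⟩
  intro h
  obtain ⟨W0, hW0⟩ : ∃ W0 : Submodule ℝ (E 4), finrank ℝ W0 = 2 := by
    obtain ⟨b, -⟩ := exists_basis (n := 4) (j := 2) (by norm_num) 1
    exact ⟨_, by rw [Module.finrank_eq_card_basis b.toBasis, Fintype.card_fin]⟩
  obtain ⟨f, hf, hz, W, hW, hne⟩ := main W0 hW0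
  exact hne (h 4 2 le_rfl le_rfl W0 hW0 f hf (fun W hW h1 => (hz W hW).2.2 h1) W hW)

end Pool.Agent.Results.MP_a64afa_an.CosineSchubertCell
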